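import Pool.Agent.H483.NP.Def

/-!
# Every element of the Selberg class can be deformed to (almost) any functional equation and any large degree

The elements of the Selberg class `𝒮` are represented by their coefficients, as elements of the ring of
arithmetic functions with Dirichlet convolution; `H_a` is the Euler product `∏_p (1 + a(p) p^{-s})`. We show (`result`):

1. Let `F` be ANY element of `𝒮`, of degree `d`, with a pole of order at most `m` at `s = 1`, and let `0 < δ ≤ 77/400`. Let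
   `∏ Γ(l_j s + ν_j)` (`l_j > 0`, `Re ν_j ≥ 0`) be ANY gamma factor of degree `> d + 1/δ` in which at least `m` of the
   `ν_j` are `0`. For EVERY sufficiently large real `q` and EVERY `|ε| = 1` there is an Euler product `H_a` with `|a(p)| ≤ 1`
   and `∑_p |a(p)| p^{-σ} < ∞` for all `σ > 1/2 + δ`, such that `F H_a` belongs to `𝒮` and satisfies the functional equation
   with exactly the data `(q; l_j, ν_j; ε)`; if `F` has a pole of order exactly `m`, then so does `F H_a`.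
2. The condition on the number of the `ν_j = 0` is necessary: for every functional equation of every element of `𝒮` with a
   pole of order `m` at `s = 1` at least `m` of the `ν_j` are `0`.
3. For every `F` in `𝒮` of degree `d` and EVERY real `D > d + 400/77` some `F H_a`, with `∑_p |a(p)| p^{-σ} < ∞` for all
   `σ > 277/400`, belongs to `𝒮` and has degree `D`. So Q1 is false, and it is false arbitrarily near every element of `𝒮`:
   there are elements of non-integral degree which have the same coefficients at the primes as `F`, up to an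
   absolutely convergent correction.

(`F = 1` gives: every real `D > 400/77` is a degree, with any gamma factor.)
-/

set_option autoImplicit false

open Complex

namespace Pool.Agent.Results.MP_0bb3d8_nt.EveryElementDeforms

/-- The completed function `Φ(s) = Q^s ∏_{j < k} Γ(λ_j s + μ_j) F(s)`; here `G` is the entire function
`(s - 1)^m F(s)`. -/
noncomputable def Phi (m : ℕ) (G : ℂ → ℂ) (Q : ℝ) (k : ℕ) (lam : Fin k → ℝ) (mu : Fin k → ℂ) (s : ℂ) : ℂ :=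
  (Q : ℂ) ^ s * (∏ j, Gamma ((lam j : ℂ) * s + mu j)) * (G s / (s - 1) ^ m)

/-- no factor `Γ(λ_j s + μ_j)` has a pole at `s` -/
def NoPole (k : ℕ) (lam : Fin k → ℝ) (mu : Fin k → ℂ) (s : ℂ) : Prop :=
  ∀ j, ∀ t : ℕ, (lam j : ℂ) * s + mu j ≠ -(t : ℂ)

/-- `G` is the function `(s - 1)^m F(s)`, entire of finite order, and `F` satisfies the functional equation with the
data `Q`, `λ_j`, `μ_j`, `ω` (at all points which are not poles). -/
def HasData (a : ArithmeticFunction ℂ) (m : ℕ) (G : ℂ → ℂ) (Q : ℝ) (k : ℕ) (lam : Fin k → ℝ) (mu : Fin k → ℂ)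
    (ω : ℂ) : Prop :=
  Differentiable ℂ G ∧ (∃ A B : ℝ, ∀ z : ℂ, ‖G z‖ ≤ A * Real.exp (‖z‖ ^ B)) ∧
    (∀ s : ℂ, 1 < s.re → G s = (s - 1) ^ m * LSeries (fun n => a n) s) ∧ 0 < Q ∧ (∀ j, 0 < lam j) ∧
      (∀ j, 0 ≤ (mu j).re) ∧ ‖ω‖ = 1 ∧
      ∀ s : ℂ, s ≠ 0 → s ≠ 1 → NoPole k lam mu s → NoPole k lam mu (1 - starRingEnd ℂ s) →
        Phi m G Q k lam mu s = ω * starRingEnd ℂ (Phi m G Q k lam mu (1 - starRingEnd ℂ s))

/-- The Selberg class: `IsSelberg a` says that `F(s) = ∑ a(n) n^{-s}` belongs to it. (By the Euler product `a(1) = 1`.) -/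
structure IsSelberg (a : ArithmeticFunction ℂ) : Prop where
  /-- `a(1) = 1` -/
  one : a 1 = 1
  /-- absolute convergence for `Re s > 1` -/
  conv : ∀ s : ℂ, 1 < s.re → LSeriesSummable (fun n => a n) s
  /-- the Ramanujan bound `a(n) ≪ n^ε` -/
  ramanujan : ∀ ε : ℝ, 0 < ε → ∃ C : ℝ, ∀ n : ℕ, 1 ≤ n → ‖a n‖ ≤ C * (n : ℝ) ^ ε
  /-- continuation and functional equation -/
  cont : ∃ (m : ℕ) (G : ℂ → ℂ) (Q : ℝ) (k : ℕ) (lam : Fin k → ℝ) (mu : Fin k → ℂ) (ω : ℂ),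
    HasData a m G Q k lam mu ω
  /-- the Euler product with the factors `exp (∑_{k ≥ 1} b(p^k) p^{-ks})`, `b(p^k) ≪ p^{kθ}`, `θ < 1/2` -/
  euler : ∃ (b : ℕ → ℂ) (θ C : ℝ), θ < 1 / 2 ∧
    (∀ p l : ℕ, p.Prime → 1 ≤ l → ‖b (p ^ l)‖ ≤ C * ((p ^ l : ℕ) : ℝ) ^ θ) ∧
    ∀ s : ℂ, 1 < s.re → HasProd (fun p : Nat.Primes =>
      exp (∑' l : ℕ, b ((p : ℕ) ^ (l + 1)) * ((p : ℕ) : ℂ) ^ (-(((l + 1 : ℕ) : ℂ) * s))))
      (LSeries (fun n => a n) s)

/-- `d = 2 ∑ λ_j` for some functional equation of `F` -/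
def IsDegree (a : ArithmeticFunction ℂ) (d : ℝ) : Prop :=
  ∃ (m : ℕ) (G : ℂ → ℂ) (Q : ℝ) (k : ℕ) (lam : Fin k → ℝ) (mu : Fin k → ℂ) (ω : ℂ),
    HasData a m G Q k lam mu ω ∧ d = 2 * ∑ j, lam j

/-- the coefficients of the Euler product `∏_p (1 + a(p) p^{-s})` -/
noncomputable def H (a : ℕ → ℂ) : ArithmeticFunction ℂ :=
  ⟨fun n => if Squarefree n then ∏ p ∈ n.primeFactors, a p else 0, if_neg not_squarefree_zero⟩

/-- `|a(p)| ≤ 1` and `∑_p |a(p)| p^{-σ} < ∞` for all `σ > σ₀` -/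
def IsSmall (a : ℕ → ℂ) (σ₀ : ℝ) : Prop :=
  (∀ p, ‖a p‖ ≤ 1) ∧ ∀ σ : ℝ, σ₀ < σ → Summable fun p : Nat.Primes => ‖a p‖ * ((p : ℕ) : ℝ) ^ (-σ)

open Pool.Agent.H483 in
lemma isSelberg_iff (a : ArithmeticFunction ℂ) : IsSelberg a ↔ UF.S a := by
  unfold UF.S
  rw [← Pool.Agent.H177R3.Lit.inS_iff]
  constructor
  · rintro ⟨h1, h2, h4, ⟨m, G, Q, r, lam, μ, ε, g1, g2, g3, g4, g5, g6, g7, g8⟩, h5⟩
    exact ⟨h1, h2, ⟨m, G, g1, g2, g3, Q, r, lam, μ, ε, g4, g5, g6, g7, g8⟩, h4, h5⟩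
  · rintro ⟨h1, h2, ⟨m, G, g1, g2, g3, Q, r, lam, μ, ε, g4, g5, g6, g7, g8⟩, h4, h5⟩
    exact ⟨h1, h2, h4, ⟨m, G, Q, r, lam, μ, ε, g1, g2, g3, g4, g5, g6, g7, g8⟩, h5⟩

open Pool.Agent.H336R4 in
lemma data_iff {a : ArithmeticFunction ℂ} {m : ℕ} {G : ℂ → ℂ} {Q : ℝ} {k : ℕ} {lam : Fin k → ℝ} {mu : Fin k → ℂ}
    {ω : ℂ} : HasData a m G Q k lam mu ω ↔ PF.Cont (fun n => a n) m G ∧ 0 < Q ∧ PF.FE m G Q k lam mu ω := by
  constructor
  · rintro ⟨g1, ⟨A, B, g2⟩, g3, g4, g5, g6, g7, g8⟩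
    refine ⟨⟨g1, ⟨B, A, g2⟩, g3⟩, g4, g5, g6, g7, fun s hs0 hs1 => ?_⟩
    have hnp : ∀ z : ℂ, 0 < z.re → NoPole k lam mu z := by
      intro z hz j t heq
      have := congrArg Complex.re heq
      simp at this
      have h3 := mul_pos (g5 j) hz
      have h4 := g6 j
      have h5 : (0:ℝ) ≤ t := Nat.cast_nonneg t
      linarith
    exact g8 s (by rintro rfl; simp at hs0) (by rintro rfl; simp at hs1) (hnp s hs0)
      (hnp _ (by simp; linarith))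
  · rintro ⟨⟨g1, ⟨B, A, g2⟩, g3⟩, g4, hFE⟩
    exact ⟨g1, ⟨A, B, g2⟩, g3, g4, hFE.1, hFE.2.1, hFE.2.2.1, fun s h0 h1 hp hp' =>
      Pool.Agent.H177R3.Lit.fe_ext g1 g4 hFE h0 h1 hp hp'⟩

open Pool.Agent.H483 in
lemma small_of {a : ℕ → ℂ} {σ₀ : ℝ} (h1 : ∀ p, ‖a p‖ ≤ 1) (h2 : ∀ s : ℂ, σ₀ < s.re → LSeriesSummable (SA.cf a) s) :
    IsSmall a σ₀ := by
  refine ⟨h1, fun σ hσ => ?_⟩
  have h1 := (h2 (σ : ℂ) (by rw [Complex.ofReal_re]; exact hσ)).norm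
  have h2 := h1.comp_injective (Nat.Primes.coe_nat_injective)
  refine h2.congr fun p => ?_
  rw [Function.comp_apply, LSeries.norm_term_eq, if_neg p.2.ne_zero, SA.cf_prime a p.2, Complex.ofReal_re,
    Real.rpow_neg (Nat.cast_nonneg _), div_eq_mul_inv]

open Pool.Agent.H483 in
/-- **Main theorem.** -/
theorem result :
    -- 1. prescribed functional equation
    (∀ (F : ArithmeticFunction ℂ) (m : ℕ) (G : ℂ → ℂ) (Q : ℝ) (k : ℕ) (lam : Fin k → ℝ) (mu : Fin k → ℂ) (ω : ℂ),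
      IsSelberg F → HasData F m G Q k lam mu ω → ∀ δ : ℝ, 0 < δ → δ ≤ 77 / 400 →
      ∀ (r : ℕ) (l : Fin r → ℝ) (ν : Fin r → ℂ), (∀ j, 0 < l j) → (∀ j, 0 ≤ (ν j).re) →
      2 * ∑ j, lam j + 1 / δ < 2 * ∑ j, l j → m ≤ {j : Fin r | ν j = 0}.ncard →
      ∃ q₀ : ℝ, ∀ q : ℝ, q₀ ≤ q → ∀ ε : ℂ, ‖ε‖ = 1 → ∃ (a : ℕ → ℂ) (G' : ℂ → ℂ), IsSmall a (1 / 2 + δ) ∧
        IsSelberg (F * H a) ∧ HasData (F * H a) m G' q r l ν ε ∧ (G 1 ≠ 0 → G' 1 ≠ 0)) ∧
    -- 2. the condition on the poles is necessary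
    (∀ (F : ArithmeticFunction ℂ) (m : ℕ) (G : ℂ → ℂ) (Q : ℝ) (k : ℕ) (lam : Fin k → ℝ) (mu : Fin k → ℂ) (ω : ℂ),
      IsSelberg F → HasData F m G Q k lam mu ω → G 1 ≠ 0 → m ≤ {j : Fin k | mu j = 0}.ncard) ∧
    -- 3. every large degree near every element
    ∀ (F : ArithmeticFunction ℂ) (d : ℝ), IsSelberg F → IsDegree F d → ∀ D : ℝ, d + 400 / 77 < D →
      ∃ a : ℕ → ℂ, IsSmall a (277 / 400) ∧ IsSelberg (F * H a) ∧ IsDegree (F * H a) D := by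
  have main : ∀ (F : ArithmeticFunction ℂ) (m : ℕ) (G : ℂ → ℂ) (Q : ℝ) (k : ℕ) (lam : Fin k → ℝ) (mu : Fin k → ℂ)
      (ω : ℂ), IsSelberg F → HasData F m G Q k lam mu ω → ∀ δ : ℝ, 0 < δ → δ ≤ 77 / 400 →
      ∀ (r : ℕ) (l : Fin r → ℝ) (ν : Fin r → ℂ), (∀ j, 0 < l j) → (∀ j, 0 ≤ (ν j).re) →
      2 * ∑ j, lam j + 1 / δ < 2 * ∑ j, l j → m ≤ {j : Fin r | ν j = 0}.ncard →
      ∃ q₀ : ℝ, ∀ q : ℝ, q₀ ≤ q → ∀ ε : ℂ, ‖ε‖ = 1 → ∃ (a : ℕ → ℂ) (G' : ℂ → ℂ), IsSmall a (1 / 2 + δ) ∧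
        IsSelberg (F * H a) ∧ HasData (F * H a) m G' q r l ν ε ∧ (G 1 ≠ 0 → G' 1 ≠ 0) := by
    intro F m G Q k lam mu ω hF hdat δ hδ hδ2 r l ν hl hν hdeg hm
    classical
    obtain ⟨hc, hQ, hFE⟩ := data_iff.1 hdat
    have hS := (isSelberg_iff F).1 hF
    obtain ⟨J, hJ1, hJ2⟩ : ∃ J : Finset (Fin r), J.card = m ∧ ∀ j ∈ J, ν j = 0 := by
      have h1 : {j : Fin r | ν j = 0}.ncard = (Finset.univ.filter fun j => ν j = 0).card := by
        rw [← Set.ncard_coe_finset]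
        congr 1
        ext j
        simp
      rw [h1] at hm
      obtain ⟨J, hJs, hJc⟩ := Finset.exists_subset_card_eq hm
      exact ⟨J, hJc, fun j hj => (Finset.mem_filter.1 (hJs hj)).2⟩
    obtain ⟨Q₀, hQ₀, h⟩ := NP.approx hS hc hQ hFE hl hν hJ1 hJ2 hδ hδ2 (by
      have h2 : 1 / δ < 2 * ∑ j, l j - 2 * ∑ j, lam j := by linarith
      rw [div_lt_iff₀ hδ] at h2
      linarith)
    refine ⟨Q₀, fun q hq ε hε => ?_⟩
    obtain ⟨a, G', a1, a2, a3, a4, a5⟩ := h q hq ε hε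
    have hq0 : 0 < q := lt_of_lt_of_le hQ₀ hq
    have hcls := NP.mul_S hS a2 a4 hq0 a5
    refine ⟨a, G', small_of a2 a3, (isSelberg_iff _).2 (Pool.Agent.H177R3.PFV.cls_ss hcls), data_iff.2 ⟨a4, hq0, a5⟩,
      fun hG1 => ?_⟩
    obtain ⟨h3, h4⟩ := NP.value_one hS hc a2 (by linarith) a3 a4
    rw [h3]
    exact mul_ne_zero hG1 h4
  refine ⟨main, ?_, ?_⟩
  · intro F m G Q k lam mu ω _ hdat hG1
    obtain ⟨hc, hQ, hFE⟩ := data_iff.1 hdat
    exact NP.zeros_ge hc hQ hFE hG1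
  · rintro F d hF ⟨m, G, Q, k, lam, mu, ω, hdat, rfl⟩ D hD
    have hd0 : 0 ≤ ∑ j, lam j := Finset.sum_nonneg fun j _ => (data_iff.1 hdat).2.2.1 j |>.le
    have hm0 : (0:ℝ) < ((m + 1 : ℕ) : ℝ) := by positivity
    have hL : 0 < D / (2 * ((m + 1 : ℕ) : ℝ)) := by
      apply div_pos _ (by positivity)
      linarith
    have hsum : 2 * ∑ _j : Fin (m + 1), D / (2 * ((m + 1 : ℕ) : ℝ)) = D := by
      rw [Finset.sum_const, Finset.card_univ, Fintype.card_fin, nsmul_eq_mul]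
      field_simp
    obtain ⟨q₀, h⟩ := main F m G Q k lam mu ω hF hdat (77 / 400) (by norm_num) le_rfl (m + 1)
      (fun _ => D / (2 * ((m + 1 : ℕ) : ℝ))) (fun _ => 0) (fun _ => hL) (fun _ => by simp)
      (by rw [hsum]; norm_num; linarith) (by
        have : {j : Fin (m + 1) | (0 : ℂ) = 0} = Set.univ := by ext; simp
        rw [this, Set.ncard_univ, Nat.card_eq_fintype_card, Fintype.card_fin]
        omega)
    obtain ⟨a, G', a1, a2, a3, -⟩ := h q₀ le_rfl 1 norm_one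
    refine ⟨a, ?_, a2, m, G', q₀, m + 1, _, _, 1, a3, hsum.symm⟩
    have : (1:ℝ) / 2 + 77 / 400 = 277 / 400 := by norm_num
    rw [this] at a1
    exact a1

end Pool.Agent.Results.MP_0bb3d8_nt.EveryElementDeforms
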