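import Pool.Agent.H616.SP.Cls

/-!
# Degree and rank in the polynomial Selberg class are independent, also for unimodular Satake parameters

For an L-function of arithmetic origin the local factors are `∏_{j ≤ m} (1 - α_j(p) p^{-s})⁻¹` with `|α_j(p)| = 1` for
all but finitely many primes `p`, and the rank `m` of the Euler product is equal to the degree `d = 2 ∑ lam_j` of the
gamma factor. We show: for EVERY rank `m ≥ 6` and EVERY gamma factor `∏ Γ(lam_j s + mu_j)` of degree `d > 400/77`, in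
particular for every real `d > 400/77`, there are entire elements `F` of the Selberg class with this gamma factor and an
Euler product of rank `m` with `|α_j(p)| = 1` for all primes `p > P₀`.
-/

set_option autoImplicit false

open Complex Finset

namespace Pool.Agent.Results.MP_0bb3d8_nt.TemperedEulerProducts

/-- The completed function `Λ(s) = Q^s ∏_{j < k} Γ(lam_j s + mu_j) F(s)`; here `G` is the entire function
`(s - 1)^m F(s)`. -/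
noncomputable def Lam (m : ℕ) (G : ℂ → ℂ) (Q : ℝ) (k : ℕ) (lam : Fin k → ℝ) (mu : Fin k → ℂ) (s : ℂ) : ℂ :=
  (Q : ℂ) ^ s * (∏ j, Gamma ((lam j : ℂ) * s + mu j)) * (G s / (s - 1) ^ m)

/-- no factor `Γ(lam_j s + mu_j)` has a pole at `s` -/
def NoPole (k : ℕ) (lam : Fin k → ℝ) (mu : Fin k → ℂ) (s : ℂ) : Prop :=
  ∀ j, ∀ t : ℕ, (lam j : ℂ) * s + mu j ≠ -(t : ℂ)

/-- `F(s) = ∑ a(n) n^{-s}` has the continuation and functional equation with the given data: `(s - 1)^m F(s)` extends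
to the entire function `G` of finite order, and `Λ(s) = ω conj Λ(1 - conj s)` -/
def HasData (a : ℕ → ℂ) (m : ℕ) (G : ℂ → ℂ) (Q : ℝ) (k : ℕ) (lam : Fin k → ℝ) (mu : Fin k → ℂ) (ω : ℂ) : Prop :=
  Differentiable ℂ G ∧ (∃ A B : ℝ, ∀ z : ℂ, ‖G z‖ ≤ A * Real.exp (‖z‖ ^ B)) ∧
  (∀ s : ℂ, 1 < s.re → G s = (s - 1) ^ m * LSeries a s) ∧
  0 < Q ∧ (∀ j, 0 < lam j) ∧ (∀ j, 0 ≤ (mu j).re) ∧ ‖ω‖ = 1 ∧
  ∀ s : ℂ, s ≠ 0 → s ≠ 1 → NoPole k lam mu s → NoPole k lam mu (1 - starRingEnd ℂ s) →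
    Lam m G Q k lam mu s = ω * starRingEnd ℂ (Lam m G Q k lam mu (1 - starRingEnd ℂ s))

/-- The Selberg class. -/
structure IsSelberg (a : ℕ → ℂ) : Prop where
  /-- `a(1) = 1` -/
  one : a 1 = 1
  /-- absolute convergence for `Re s > 1` -/
  conv : ∀ s : ℂ, 1 < s.re → LSeriesSummable a s
  /-- the bound `a(n) ≪ n^ε` -/
  ramanujan : ∀ ε : ℝ, 0 < ε → ∃ C : ℝ, ∀ n : ℕ, 1 ≤ n → ‖a n‖ ≤ C * (n : ℝ) ^ ε
  /-- continuation and functional equation -/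
  data : ∃ m G Q k lam mu ω, HasData a m G Q k lam mu ω
  /-- the Euler product with the factors `exp (∑_{l ≥ 1} b(p^l) p^{-ls})`, `b(p^l) ≪ p^{lθ}`, `θ < 1/2` -/
  euler : ∃ (b : ℕ → ℂ) (θ C : ℝ), θ < 1 / 2 ∧
    (∀ p l : ℕ, p.Prime → 1 ≤ l → ‖b (p ^ l)‖ ≤ C * ((p ^ l : ℕ) : ℝ) ^ θ) ∧
    ∀ s : ℂ, 1 < s.re → HasProd (fun p : Nat.Primes =>
      exp (∑' l : ℕ, b ((p : ℕ) ^ (l + 1)) * ((p : ℕ) : ℂ) ^ (-(((l + 1 : ℕ) : ℂ) * s))))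
      (LSeries a s)

/-- `d` is the degree of an element: `d = 2 ∑ lam_j` for SOME admissible data -/
def IsDegree (a : ℕ → ℂ) (d : ℝ) : Prop :=
  ∃ (m : ℕ) (G : ℂ → ℂ) (Q : ℝ) (k : ℕ) (lam : Fin k → ℝ) (mu : Fin k → ℂ) (ω : ℂ),
    HasData a m G Q k lam mu ω ∧ d = 2 * ∑ j, lam j

/-- `a` is multiplicative with an Euler product of rank `m` whose Satake parameters `α_j(p)` are unimodular for all
primes `p > P₀` (and `0` for the primes `p ≤ P₀`):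
`∑_k a(p^k) X^k = ∏_{j < m} (1 - α_j(p) X)⁻¹` -/
def Tempered (a : ℕ → ℂ) (m : ℕ) (α : ℕ → Fin m → ℂ) (P₀ : ℝ) : Prop :=
  a 0 = 0 ∧ (∀ x y : ℕ, Nat.Coprime x y → a (x * y) = a x * a y) ∧
  (∀ p : ℕ, p.Prime → PowerSeries.mk (fun k => a (p ^ k)) *
    ((∏ j, (1 - Polynomial.C (α p j) * Polynomial.X) : Polynomial ℂ) : PowerSeries ℂ) = 1) ∧
  (∀ p : ℕ, p.Prime → P₀ < p → ∀ j, ‖α p j‖ = 1) ∧ (∀ p : ℕ, p.Prime → (p : ℝ) ≤ P₀ → ∀ j, α p j = 0)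

section

open Pool.Agent.H616

/-- conversion to the class used in the proofs -/
lemma toCls {a : ℕ → ℂ} (ha : IsSelberg a) (h0 : a 0 = 0) {m : ℕ} {G : ℂ → ℂ} {Q : ℝ} {k : ℕ} {lam : Fin k → ℝ}
    {mu : Fin k → ℂ} {ω : ℂ} (h : HasData a m G Q k lam mu ω) :
    SP.IsSel (SP.af a h0) ∧ Pool.Agent.H336R4.PF.Cls (fun n => SP.af a h0 n) (2 * ∑ j, lam j) := by
  obtain ⟨g1, ⟨A, B, g2⟩, g3, g4, g5, g6, g7, g8⟩ := h
  have hS : SP.IsSel (SP.af a h0) := by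
    refine ⟨ha.one, ha.conv, ⟨m, G, g1, ⟨A, B, g2⟩, g3, Q, k, lam, mu, ω, g4, g5, g6, g7, g8⟩, ha.ramanujan, ha.euler⟩
  obtain ⟨d, hd⟩ := Pool.Agent.H177R3.PFV.ss_cls ((SP.isSel_iff _).1 hS)
  refine ⟨hS, ha.one, ha.ramanujan, ⟨m, G, ⟨g1, ⟨B, A, g2⟩, g3⟩, Q, k, lam, mu, ω, g4, ⟨g5, g6, g7, fun s h1 h2 => ?_⟩, rfl⟩,
    hd.2.2.2⟩
  have h3 : s ≠ 0 := by rintro rfl; simp at h1
  have h4 : s ≠ 1 := by rintro rfl; simp at h2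
  have := g8 s h3 h4 (SP.noPole_of g5 g6 h1) (SP.noPole_of g5 g6 (by simp; linarith))
  unfold Lam at this
  exact this

end

/-- **Main theorem.** -/
theorem result :
    -- 1. the degree is well defined
    (∀ (a : ℕ → ℂ) (d d' : ℝ), a 0 = 0 → IsSelberg a → IsDegree a d → IsDegree a d' → d = d') ∧
    -- 2. every rank `m ≥ 6`, every gamma factor of degree `> 400/77`
    (∀ (m : ℕ), 6 ≤ m → ∀ (k : ℕ) (lam : Fin k → ℝ) (mu : Fin k → ℂ), (∀ j, 0 < lam j) → (∀ j, 0 ≤ (mu j).re) →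
      400 / 77 < 2 * ∑ j, lam j → ∃ Q₀ : ℝ, ∀ Q : ℝ, Q₀ ≤ Q → ∀ ω : ℂ, ‖ω‖ = 1 →
      ∃ (a : ℕ → ℂ) (G : ℂ → ℂ) (α : ℕ → Fin m → ℂ) (P₀ : ℝ), IsSelberg a ∧ HasData a 0 G Q k lam mu ω ∧
        Tempered a m α P₀ ∧ ∀ s : ℂ, 277 / 400 < s.re → LSeriesSummable a s ∧ G s = LSeries a s ∧ G s ≠ 0 ∧
          HasProd (fun p : Nat.Primes => ∏ j, (1 - α p j * ((p : ℕ) : ℂ) ^ (-s))⁻¹) (G s)) ∧
    -- 3. every rank `m ≥ 6` and every real degree `d > 400/77`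
    ∀ (m : ℕ), 6 ≤ m → ∀ d : ℝ, 400 / 77 < d → ∃ (a : ℕ → ℂ) (α : ℕ → Fin m → ℂ) (P₀ : ℝ),
      IsSelberg a ∧ Tempered a m α P₀ ∧ ∀ d' : ℝ, IsDegree a d' ↔ d' = d := by
  have hdeg : ∀ (a : ℕ → ℂ) (d d' : ℝ), a 0 = 0 → IsSelberg a → IsDegree a d → IsDegree a d' → d = d' := by
    rintro a d d' h0 ha ⟨m, G, Q, k, lam, mu, ω, h, rfl⟩ ⟨m', G', Q', k', lam', mu', ω', h', rfl⟩
    obtain ⟨h1, h2⟩ := toCls ha h0 h
    obtain ⟨-, h3⟩ := toCls ha h0 h'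
    exact Pool.Agent.H616.SP.deg_unique h1 h2 h3
  have hfam : ∀ (m : ℕ), 6 ≤ m → ∀ (k : ℕ) (lam : Fin k → ℝ) (mu : Fin k → ℂ), (∀ j, 0 < lam j) →
      (∀ j, 0 ≤ (mu j).re) → 400 / 77 < 2 * ∑ j, lam j → ∃ Q₀ : ℝ, ∀ Q : ℝ, Q₀ ≤ Q → ∀ ω : ℂ, ‖ω‖ = 1 →
      ∃ (a : ℕ → ℂ) (G : ℂ → ℂ) (α : ℕ → Fin m → ℂ) (P₀ : ℝ), IsSelberg a ∧ HasData a 0 G Q k lam mu ω ∧
        Tempered a m α P₀ ∧ ∀ s : ℂ, 277 / 400 < s.re → LSeriesSummable a s ∧ G s = LSeries a s ∧ G s ≠ 0 ∧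
          HasProd (fun p : Nat.Primes => ∏ j, (1 - α p j * ((p : ℕ) : ℂ) ^ (-s))⁻¹) (G s) := by
    intro m hm k lam mu hl hmu hd
    obtain ⟨l, rfl⟩ : ∃ l, m = 3 + l := ⟨m - 3, by omega⟩
    obtain ⟨Q₀, hQ₀, h⟩ := Pool.Agent.H616.SP.family_uni hl hmu hd (l := l) (by omega)
    refine ⟨Q₀, fun Q hQ ω hω => ?_⟩
    obtain ⟨f, al, P0, G, M⟩ := h Q hQ ω hω
    have hQ0 : 0 < Q := by linarith
    have hS := M.isSel hQ0 hω hl hmu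
    have hdata : HasData f 0 G Q k lam mu ω := by
      refine ⟨M.diff, ?_, fun s hs => ?_, hQ0, hl, hmu, hω, fun s _ _ h1 h2 => M.phi s h1 h2⟩
      · obtain ⟨B, A, h⟩ := M.ord.order
        exact ⟨A, B, h⟩
      · rw [pow_zero, one_mul]
        exact (M.ser s (by linarith)).2
    refine ⟨f, G, al, P0, ⟨M.f1, hS.conv, M.ram, ⟨0, G, Q, k, lam, mu, ω, hdata⟩, hS.euler⟩, hdata,
      ⟨M.f0, M.mul, M.loc, fun p hp hlt => (M.big p hp hlt).2.1, M.small⟩, fun s hs => ?_⟩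
    refine ⟨(M.ser s hs).1, (M.ser s hs).2, ?_, ?_⟩
    · rw [(M.ser s hs).2]; exact M.ne hs
    · rw [(M.ser s hs).2]; exact M.eul s hs
  refine ⟨hdeg, hfam, fun m hm d hd => ?_⟩
  have hsum : 2 * ∑ j, (fun _ : Fin 1 => d / 2) j = d := by
    rw [Fin.sum_univ_one]; ring
  obtain ⟨Q₀, hQ₀⟩ := hfam m hm 1 (fun _ : Fin 1 => d / 2) (fun _ => 0) (fun _ => by linarith)
    (fun _ => by simp) (by rw [hsum]; exact hd)
  obtain ⟨a, G, α, P₀, h1, h2, h3, -⟩ := hQ₀ Q₀ le_rfl 1 (by simp)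
  have h4 : IsDegree a d := ⟨0, G, Q₀, 1, _, _, 1, h2, hsum.symm⟩
  refine ⟨a, α, P₀, h1, h3, fun d' => ⟨fun h => hdeg a d' d h3.1 h1 h h4, ?_⟩⟩
  rintro rfl
  exact h4

end Pool.Agent.Results.MP_0bb3d8_nt.TemperedEulerProducts
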